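import Pool.Agent.Lib.CSU.Fin

/-!
# MP_4b09b1_nt: if `A + B` has no composite element then `A` and `B` have small mutual energy

Let `A, B ⊆ {1, ..., N}` have at least `N ^ 0.49` elements each and suppose that `A + B` contains no
composite number.  Then for all fixed nonzero integers `l, m` and every `ε > 0` the equation
`l a + m b = l a' + m b'` has at most `N ^ (1/4 + ε) |A| |B|` solutions, and therefore `l a + m b`
takes at least `|A| |B| N ^ (-1/4 - ε)` values.  Stated as a dichotomy: Q1 holds for every pair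
`A, B` for which one such form has larger energy, in particular (for `N` large) for every pair with
`|A + B| ≤ N ^ 0.729` or `|A - B| ≤ N ^ 0.729`.
-/

set_option autoImplicit false

namespace Pool.Agent.Results.MP_4b09b1_nt.MixedEnergy

/-- Let `l, m` be nonzero integers and `ε > 0`.  For all sufficiently large `N` and all sets `A`, `B`
of integers in `1..N` with at least `N ^ 0.49` elements each: either some `a + b` with `a ∈ A`,
`b ∈ B` is composite, or the number of quadruples `(a, b, a', b')` (`a, a' ∈ A`, `b, b' ∈ B`) with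
`l a + m b = l a' + m b'` is at most `N ^ (1/4 + ε) |A| |B|` and `l a + m b` takes at least
`|A| |B| / N ^ (1/4 + ε)` different values. -/
theorem result (l m : ℤ) (hl : l ≠ 0) (hm : m ≠ 0) (ε : ℝ) (hε : 0 < ε) :
    ∃ N₀ : ℕ, ∀ N : ℕ, N₀ ≤ N → ∀ A B : Finset ℕ,
      A ⊆ Finset.Icc 1 N → B ⊆ Finset.Icc 1 N →
      (N : ℝ) ^ (0.49 : ℝ) ≤ (A.card : ℝ) → (N : ℝ) ^ (0.49 : ℝ) ≤ (B.card : ℝ) →
      (∃ a ∈ A, ∃ b ∈ B, 1 < a + b ∧ ¬ Nat.Prime (a + b)) ∨
      ((((((A ×ˢ B) ×ˢ (A ×ˢ B)).filter (fun z : (ℕ × ℕ) × (ℕ × ℕ) =>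
          l * (z.1.1 : ℤ) + m * (z.1.2 : ℤ) = l * (z.2.1 : ℤ) + m * (z.2.2 : ℤ))).card : ℕ) : ℝ) ≤
          (N : ℝ) ^ (1 / 4 + ε) * ((A.card : ℝ) * (B.card : ℝ)) ∧
        (A.card : ℝ) * (B.card : ℝ) ≤ (N : ℝ) ^ (1 / 4 + ε) *
          (((A ×ˢ B).image (fun z : ℕ × ℕ => l * (z.1 : ℤ) + m * (z.2 : ℤ))).card : ℝ)) :=
  Pool.CSU.fin1 l m hl hm ε hε

end Pool.Agent.Results.MP_4b09b1_nt.MixedEnergy
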