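import Pool.Agent.Lib.CSU.Fin

/-!
# MP_4b09b1_nt: if `A + B` has no composite element then `A` is pseudorandom modulo almost all primes

Let `A, B ⊆ {1, ..., N}` have at least `N ^ 0.49` elements each and suppose that `A + B` contains no
composite number.  Then (with the absolute constant `c = 1/20000`) for every `Q` between `N ^ ε` and
`N ^ (1/2)` and for all primes `Q < p ≤ 2 Q` with at most `Q ^ (1 - c)` exceptions, all nontrivial
Fourier coefficients of `A` modulo `p` are small: `|∑_{a ∈ A} e(k a / p)| < p ^ (-c) |A|` for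
`k = 1, ..., p - 1`.  By symmetry the same holds for `B`.  Stated as a dichotomy: Q1 holds if one of
the two sets has a Fourier bias modulo more than `Q ^ (1 - c)` primes of `(Q, 2 Q]` for one such `Q`
(the other set being arbitrary).
-/

set_option autoImplicit false

namespace Pool.Agent.Results.MP_4b09b1_nt.Pseudorandom

/-- Let `ε > 0`.  For all sufficiently large `N` and all sets `A`, `B` of integers in `1..N` with at
least `N ^ 0.49` elements each: either some `a + b` with `a ∈ A`, `b ∈ B` is composite, or for every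
integer `Q` with `N ^ ε ≤ Q ≤ N ^ (1/2)` there are at most `Q ^ (1 - 1/20000)` primes `p` with
`Q < p ≤ 2 Q` for which some complex number `ζ ≠ 1` with `ζ ^ p = 1` satisfies
`|∑_{a ∈ A} ζ ^ a| ≥ p ^ (-1/20000) |A|`. -/
theorem result (ε : ℝ) (hε : 0 < ε) :
    ∃ N₀ : ℕ, ∀ N : ℕ, N₀ ≤ N → ∀ A B : Finset ℕ,
      A ⊆ Finset.Icc 1 N → B ⊆ Finset.Icc 1 N →
      (N : ℝ) ^ (0.49 : ℝ) ≤ (A.card : ℝ) → (N : ℝ) ^ (0.49 : ℝ) ≤ (B.card : ℝ) →
      (∃ a ∈ A, ∃ b ∈ B, 1 < a + b ∧ ¬ Nat.Prime (a + b)) ∨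
      ∀ Q : ℕ, (N : ℝ) ^ ε ≤ (Q : ℝ) → (Q : ℝ) ≤ (N : ℝ) ^ (1 / 2 : ℝ) → ∀ P : Finset ℕ,
        (∀ p ∈ P, p.Prime ∧ Q < p ∧ p ≤ 2 * Q ∧ ∃ ζ : ℂ, ζ ^ p = 1 ∧ ζ ≠ 1 ∧
          (p : ℝ) ^ (-(1 / 20000) : ℝ) * (A.card : ℝ) ≤ ‖∑ a ∈ A, ζ ^ a‖) →
        (P.card : ℝ) ≤ (Q : ℝ) ^ (1 - 1 / 20000 : ℝ) :=
  Pool.CSU.fin3 ε hε

end Pool.Agent.Results.MP_4b09b1_nt.Pseudorandom
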