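import Pool.Agent.Lib.MP_4b09b1_nt.Final

/-!
# MP_4b09b1_nt: composite numbers in `A + B` when one of the sets is rich in quadratic values

The squares, or more generally the values of a quadratic polynomial, are the only known examples of
sets of about `N ^ (1/2)` elements of `{1, ..., N}` which avoid half of the residue classes modulo
each prime; they are the conjectural extremal sets of the large sieve, and so the natural candidates
for a set `A` with a large set `B` such that `A + B` consists of primes.  We show that they do not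
give an example: if `A` contains at least `N ^ 0.4895` values of a quadratic polynomial with integer
coefficients and `B` is any set of at least `N ^ 0.4895` elements, then `A + B` contains a composite
number.
-/

set_option autoImplicit false

namespace Pool.Agent.Results.MP_4b09b1_nt.QuadraticValues

open Classical in
/-- For all sufficiently large `N`: if `A`, `B` are sets of integers in `1..N`, `B` has at least
`N ^ 0.4895` elements, and at least `N ^ 0.4895` elements of `A` are values at integers of one
polynomial `α x ^ 2 + β x + γ` with integer coefficients, `α ≠ 0`, then some `a + b` with `a ∈ A`,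
`b ∈ B` is composite. -/
theorem result :
    ∃ N₀ : ℕ, ∀ N : ℕ, N₀ ≤ N → ∀ A B : Finset ℕ,
      A ⊆ Finset.Icc 1 N → B ⊆ Finset.Icc 1 N →
      ∀ α β γ : ℤ, α ≠ 0 →
      (N : ℝ) ^ (0.4895 : ℝ) ≤
        ((A.filter (fun a : ℕ => ∃ x : ℤ, (a : ℤ) = α * x ^ 2 + β * x + γ)).card : ℝ) →
      (N : ℝ) ^ (0.4895 : ℝ) ≤ (B.card : ℝ) →
      ∃ a ∈ A, ∃ b ∈ B, 1 < a + b ∧ ¬ Nat.Prime (a + b) := by
  obtain ⟨N₀, h⟩ := Pool.Agent.Lib.MP_4b09b1_nt.composite_of_quadratic
  refine ⟨N₀, ?_⟩
  intro N hN A B hA hB α β γ hα hAc hBc
  obtain ⟨a, ha, b, hb, hab⟩ := h N hN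
    (A.filter (fun a : ℕ => ∃ x : ℤ, (a : ℤ) = α * x ^ 2 + β * x + γ)) B
    (fun a ha => Finset.mem_Icc.1 (hA (Finset.mem_filter.1 ha).1))
    (fun b hb => Finset.mem_Icc.1 (hB hb)) α β γ hα (fun a ha => (Finset.mem_filter.1 ha).2) hAc hBc
  have ha1 := (Finset.mem_Icc.1 (hA (Finset.mem_filter.1 ha).1)).1
  have hb1 := (Finset.mem_Icc.1 (hB hb)).1
  exact ⟨a, (Finset.mem_filter.1 ha).1, b, hb, by omega, hab⟩

end Pool.Agent.Results.MP_4b09b1_nt.QuadraticValues
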