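import Pool.Agent.Lib.CSU.Fin

/-!
# MP_4b09b1_nt: if `A + B` has no composite element then each summand has small additive energy

Let `A, B ⊆ {1, ..., N}` have at least `N ^ 0.49` elements each and suppose that `A + B` contains no
composite number.  Then for all fixed nonzero integers `l, m` (`N` large) the equation
`l a + m a' = l a'' + m a'''` has at most `N ^ 0.313 |A| ^ 2` solutions in `A`, and `l a + m a'` takes
more than `N ^ (2/3)` values; for instance `|A + A|, |A - A| > N ^ (2/3)`.  By symmetry the same holds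
for `B`.  Stated as a dichotomy: Q1 holds if one of the two sets has larger energy (the other one
being arbitrary).
-/

set_option autoImplicit false

namespace Pool.Agent.Results.MP_4b09b1_nt.SummandEnergy

/-- Let `l, m` be nonzero integers.  For all sufficiently large `N` and all sets `A`, `B` of integers
in `1..N` with at least `N ^ 0.49` elements each: either some `a + b` with `a ∈ A`, `b ∈ B` is
composite, or the number of quadruples of elements of `A` with
`l a₁ + m a₂ = l a₃ + m a₄` is at most `N ^ 0.313 |A| ^ 2` and `l a₁ + m a₂` (`a₁, a₂ ∈ A`) takes more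
than `N ^ (2/3)` different values. -/
theorem result (l m : ℤ) (hl : l ≠ 0) (hm : m ≠ 0) :
    ∃ N₀ : ℕ, ∀ N : ℕ, N₀ ≤ N → ∀ A B : Finset ℕ,
      A ⊆ Finset.Icc 1 N → B ⊆ Finset.Icc 1 N →
      (N : ℝ) ^ (0.49 : ℝ) ≤ (A.card : ℝ) → (N : ℝ) ^ (0.49 : ℝ) ≤ (B.card : ℝ) →
      (∃ a ∈ A, ∃ b ∈ B, 1 < a + b ∧ ¬ Nat.Prime (a + b)) ∨
      ((((((A ×ˢ A) ×ˢ (A ×ˢ A)).filter (fun z : (ℕ × ℕ) × (ℕ × ℕ) =>
          l * (z.1.1 : ℤ) + m * (z.1.2 : ℤ) = l * (z.2.1 : ℤ) + m * (z.2.2 : ℤ))).card : ℕ) : ℝ) ≤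
          (N : ℝ) ^ (0.313 : ℝ) * (A.card : ℝ) ^ 2 ∧
        (N : ℝ) ^ (2 / 3 : ℝ) <
          (((A ×ˢ A).image (fun z : ℕ × ℕ => l * (z.1 : ℤ) + m * (z.2 : ℤ))).card : ℝ)) :=
  Pool.CSU.fin2 l m hl hm

end Pool.Agent.Results.MP_4b09b1_nt.SummandEnergy
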